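import Pool.Agent.Helper32_NJ.Stmts

/-!
# Squad NJ, module EXR: existence of the recipe of type R
-/

set_option autoImplicit false

namespace Pool.Agent.NJ.H9

open Pool.Agent.NJ

theorem leg_congr (l : ℕ) [Fact l.Prime] (a b : ℤ) (h : a ≡ b [ZMOD l]) :
    legendreSym l a = legendreSym l b := by
  have : (a : ZMod l) = (b : ZMod l) := (ZMod.intCast_eq_intCast_iff a b l).2 h
  unfold legendreSym
  rw [this]

theorem exists_t (l : ℕ) [Fact l.Prime] (hl : l ≠ 2) : ∃ t : ℤ, legendreSym l (-2 * t) = -1 := by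
  obtain ⟨a, ha⟩ := FiniteField.exists_nonsquare (F := ZMod l) (by rw [ZMod.ringChar_zmod_n]; exact hl)
  refine ⟨-2 * (a.val : ℤ), ?_⟩
  rw [legendreSym.eq_neg_one_iff]
  intro h
  apply ha
  have h2 : (2 : ZMod l) ≠ 0 := by
    intro h0
    have h0' : ((2 : ℕ) : ZMod l) = 0 := by exact_mod_cast h0
    rw [ZMod.natCast_eq_zero_iff] at h0'
    have hp := (Fact.out : l.Prime)
    have := (Nat.prime_dvd_prime_iff_eq hp Nat.prime_two).1 h0'
    exact hl this
  obtain ⟨c, hc⟩ := h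
  refine ⟨c / 2, ?_⟩
  push_cast at hc
  rw [ZMod.natCast_zmod_val] at hc
  field_simp
  linear_combination hc

/-- simultaneous choice -/
theorem exists_u (s : Finset ℕ) (hs : ∀ l ∈ s, l.Prime ∧ l ≠ 2) :
    ∃ w : ℤ, w ≡ 5 [ZMOD 8] ∧ ∀ l ∈ s, ∀ [Fact l.Prime], legendreSym l (-2 * w) = -1 := by
  induction s using Finset.induction_on with
  | empty => exact ⟨5, rfl, by simp⟩
  | insert l s hls ih =>
    obtain ⟨w, hw, hw2⟩ := ih (fun x hx => hs x (Finset.mem_insert_of_mem hx))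
    have hl := hs l (Finset.mem_insert_self _ _)
    haveI : Fact l.Prime := ⟨hl.1⟩
    obtain ⟨t, ht⟩ := exists_t l hl.2
    have hcop : Nat.Coprime (8 * ∏ x ∈ s, x) l := by
      apply Nat.Coprime.mul_left
      · have : Nat.Coprime 2 l := (Nat.coprime_primes Nat.prime_two hl.1).2 (Ne.symm hl.2)
        have := Nat.Coprime.pow_left 3 this
        simpa using this
      · apply Nat.Coprime.prod_left
        intro x hx
        have hx1 := hs x (Finset.mem_insert_of_mem hx)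
        refine (Nat.coprime_primes hx1.1 hl.1).2 ?_
        intro h; exact hls (h ▸ hx)
    have hcop' : IsCoprime ((8 * ∏ x ∈ s, x : ℕ) : ℤ) (l : ℤ) := Nat.isCoprime_iff_coprime.2 hcop
    obtain ⟨x, y, hxy⟩ := hcop'
    set P : ℤ := ((8 * ∏ x ∈ s, x : ℕ) : ℤ) with hP
    have h8 : (8 : ℤ) ∣ P := by rw [hP]; push_cast; exact Dvd.intro _ rfl
    refine ⟨w * (y * l) + t * (x * P), ?_, ?_⟩
    · have e : w * (y * l) + t * (x * P) = w + P * (x * (t - w)) := by
        linear_combination w * hxy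
      rw [e]
      obtain ⟨c, hc⟩ := h8
      have h0 : w + P * (x * (t - w)) ≡ w [ZMOD 8] := by
        apply Int.ModEq.symm
        rw [Int.modEq_iff_dvd]
        exact ⟨c * (x * (t - w)), by rw [hc]; ring⟩
      exact h0.trans hw
    · intro m hm _
      rcases Finset.mem_insert.1 hm with h | h
      · subst h
        rw [← ht]
        apply leg_congr
        apply Int.ModEq.symm
        rw [Int.modEq_iff_dvd]
        refine ⟨-2 * y * (w - t), ?_⟩
        linear_combination (-2 * t) * hxy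
      · rw [← hw2 m h]
        apply leg_congr
        apply Int.ModEq.symm
        rw [Int.modEq_iff_dvd]
        have hmP : (m : ℤ) ∣ P := by
          rw [hP]
          exact Int.natCast_dvd_natCast.2 (Dvd.dvd.mul_left (Finset.dvd_prod_of_mem (fun x => x) h) 8)
        obtain ⟨c, hc⟩ := hmP
        refine ⟨c * (-2 * x * (t - w)), ?_⟩
        linear_combination (-2 * w) * hxy + (-2 * x * (t - w)) * hc

theorem coprime_of (u : ℤ) (k : ℤ) (hk : k ≠ 0) (h8 : u ≡ 5 [ZMOD 8])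
    (h : ∀ l : ℕ, l.Prime → l ≠ 2 → (l : ℤ) ∣ k → ¬ (l : ℤ) ∣ u) :
    IsCoprime u ((8 * k.natAbs : ℕ) : ℤ) := by
  rw [Int.isCoprime_iff_gcd_eq_one]
  by_contra hne
  obtain ⟨p, hp, hpd⟩ := Nat.exists_prime_and_dvd hne
  have h1 : (p : ℤ) ∣ u := by
    have := (Int.natCast_dvd_natCast.2 hpd).trans (Int.gcd_dvd_left u ((8 * k.natAbs : ℕ) : ℤ))
    exact this
  have h2 : (p : ℤ) ∣ ((8 * k.natAbs : ℕ) : ℤ) := by
    have := (Int.natCast_dvd_natCast.2 hpd).trans (Int.gcd_dvd_right u ((8 * k.natAbs : ℕ) : ℤ))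
    exact this
  have h3 : p ∣ 8 * k.natAbs := by exact_mod_cast h2
  have odd : p ≠ 2 := by
    rintro rfl
    have : u % 8 = 5 := h8
    have : (2 : ℤ) ∣ u := by exact_mod_cast h1
    omega
  have h4 : p ∣ k.natAbs := by
    rcases (Nat.Prime.dvd_mul hp).1 h3 with h | h
    · exfalso
      have : p ∣ 2 ^ 3 := by simpa using h
      have := hp.dvd_of_dvd_pow this
      exact odd ((Nat.prime_dvd_prime_iff_eq hp Nat.prime_two).1 this)
    · exact h
  exact h p hp odd (Int.natCast_dvd.2 h4) h1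

theorem exr (hAN : ANStmt) : EXRStmt := by
  intro k hk N
  have hk0 : k ≠ 0 := hk.ne_zero
  have hkn : 0 < k.natAbs := Int.natAbs_pos.2 hk0
  -- the set of odd primes dividing `k`
  set s : Finset ℕ := k.natAbs.primeFactors.filter (fun l => l ≠ 2) with hs
  have hsmem : ∀ l : ℕ, l ∈ s ↔ (l.Prime ∧ (l : ℤ) ∣ k) ∧ l ≠ 2 := by
    intro l
    rw [hs, Finset.mem_filter, Nat.mem_primeFactors]
    constructor
    · rintro ⟨⟨h1, h2, _⟩, h3⟩
      exact ⟨⟨h1, Int.natCast_dvd.2 h2⟩, h3⟩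
    · rintro ⟨⟨h1, h2⟩, h3⟩
      exact ⟨⟨h1, Int.natCast_dvd.1 h2, hkn.ne'⟩, h3⟩
  obtain ⟨u, hu8, hul⟩ := exists_u s (fun l hl => ⟨((hsmem l).1 hl).1.1, ((hsmem l).1 hl).2⟩)
  -- `v`
  set K : ℤ := ∏ l ∈ s, (l : ℤ) with hK
  have hKodd : Odd K := by
    rw [hK]
    have : ∀ t : Finset ℕ, (∀ l ∈ t, l.Prime ∧ l ≠ 2) → Odd (∏ l ∈ t, (l : ℤ)) := by
      intro t
      induction t using Finset.induction_on with
      | empty => intro _; simp
      | insert a t hat ih =>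
        intro h
        rw [Finset.prod_insert hat]
        have ha := h a (Finset.mem_insert_self _ _)
        refine Odd.mul ?_ (ih (fun l hl => h l (Finset.mem_insert_of_mem hl)))
        exact_mod_cast ha.1.odd_of_ne_two ha.2
    exact this s (fun l hl => ⟨((hsmem l).1 hl).1.1, ((hsmem l).1 hl).2⟩)
  set v : ℤ := 1 + 4 * K ^ 2 with hv
  have hv8 : v ≡ 5 [ZMOD 8] := by
    obtain ⟨c, hc⟩ := hKodd
    apply Int.ModEq.symm
    rw [Int.modEq_iff_dvd]
    exact ⟨2 * c ^ 2 + 2 * c, by rw [hv, hc]; ring⟩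
  have hvl : ∀ l : ℕ, l.Prime → l ≠ 2 → (l : ℤ) ∣ k → v ≡ 1 [ZMOD l] := by
    intro l hl hl2 hlk
    have : (l : ℤ) ∣ K := by
      rw [hK]
      exact Finset.dvd_prod_of_mem (fun x : ℕ => (x : ℤ)) ((hsmem l).2 ⟨⟨hl, hlk⟩, hl2⟩)
    obtain ⟨c, hc⟩ := this
    apply Int.ModEq.symm
    rw [Int.modEq_iff_dvd]
    exact ⟨4 * l * c ^ 2, by rw [hv, hc]; ring⟩
  have hcu : IsCoprime u ((8 * k.natAbs : ℕ) : ℤ) := by
    apply coprime_of u k hk0 hu8
    intro l hl hl2 hlk hlu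
    haveI : Fact l.Prime := ⟨hl⟩
    have h1 := hul l ((hsmem l).2 ⟨⟨hl, hlk⟩, hl2⟩)
    have h2 : legendreSym l (-2 * u) = 0 := by
      rw [legendreSym.eq_zero_iff, ZMod.intCast_zmod_eq_zero_iff_dvd]
      exact Dvd.dvd.mul_left hlu _
    rw [h2] at h1
    norm_num at h1
  have hcv : IsCoprime v ((8 * k.natAbs : ℕ) : ℤ) := by
    apply coprime_of v k hk0 hv8
    intro l hl hl2 hlk hlv
    have h1 := hvl l hl hl2 hlk
    have h2 : (l : ℤ) ∣ 1 := by
      have h3 := (Int.modEq_iff_dvd.1 h1.symm)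
      have : (1 : ℤ) = v - (v - 1) := by ring
      rw [this]
      exact dvd_sub hlv h3
    have h4 : l = 1 := by
      have := Int.eq_one_of_dvd_one (Int.natCast_nonneg l) h2
      exact_mod_cast this
    exact hl.one_lt.ne' h4
  have key : ∀ (a b : ℤ), IsCoprime a b → a ≠ 0 → b ≠ 0 → (0 < a ∨ 0 < b) →
      IsCoprime (a * u + b * v) ((8 * k.natAbs : ℕ) : ℤ) →
      ∃ p q l : ℕ, p.Prime ∧ q.Prime ∧ l.Prime ∧ max N k.natAbs < p ∧ max N k.natAbs < q ∧ p ≠ q ∧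
    (p : ℤ) ≡ u [ZMOD (8 * k.natAbs : ℕ)] ∧ (q : ℤ) ≡ v [ZMOD (8 * k.natAbs : ℕ)] ∧
      (l : ℤ) = a * p + b * q := by
    intro a b hab ha hb h0 hc
    exact hAN a b u v (8 * k.natAbs) hab ha hb (by omega) (by omega) hcu hcv hc h0 (max N k.natAbs)
  have fin : ∀ p q l : ℕ, p.Prime → q.Prime → l.Prime → max N k.natAbs < p →
      max N k.natAbs < q → p ≠ q → (p : ℤ) ≡ u [ZMOD (8 * k.natAbs : ℕ)] →
      (q : ℤ) ≡ v [ZMOD (8 * k.natAbs : ℕ)] →
      ((l : ℤ) = 8 * k * q - p ∨ (l : ℤ) = p - 8 * k * q) →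
      RecR k p l q ∧ N < p := by
    intro p q l hp hq hl hNp hNq hpq hpu hqv hl2
    have h8 : (8 : ℤ) ∣ ((8 * k.natAbs : ℕ) : ℤ) := by push_cast; exact Dvd.intro _ rfl
    have hp8 : (p : ℤ) ≡ 5 [ZMOD 8] := (hpu.of_dvd h8).trans hu8
    have hq8 : (q : ℤ) ≡ 5 [ZMOD 8] := (hqv.of_dvd h8).trans hv8
    refine ⟨⟨hk, hp, hl, hq, ?_, ?_, hl2, hpq, lt_of_le_of_lt (le_max_right _ _) hNp,
      lt_of_le_of_lt (le_max_right _ _) hNq, ?_⟩, lt_of_le_of_lt (le_max_left _ _) hNp⟩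
    · have : (p : ℤ) % 8 = 5 := hp8
      omega
    · have : (q : ℤ) % 8 = 5 := hq8
      omega
    · intro m _ hm2 hmk
      have hmp : m.Prime := Fact.out
      rw [← hul m ((hsmem m).2 ⟨⟨hmp, hmk⟩, hm2⟩)]
      apply leg_congr
      have hmM : (m : ℤ) ∣ ((8 * k.natAbs : ℕ) : ℤ) := by
        push_cast
        exact Dvd.dvd.mul_left ((dvd_abs _ _).2 hmk) _
      have h1 : (p : ℤ) ≡ u [ZMOD m] := hpu.of_dvd hmM
      have h2 : (q : ℤ) ≡ 1 [ZMOD m] := (hqv.of_dvd hmM).trans (hvl m hmp hm2 hmk)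
      have h3 := ((Int.ModEq.refl (-2 : ℤ)).mul h1).mul h2
      rw [mul_one] at h3
      exact h3
  have hcneg : ∀ c : ℤ, IsCoprime (-u + 8 * k * c) ((8 * k.natAbs : ℕ) : ℤ) := by
    intro c
    have e : ∃ d : ℤ, 8 * k * c = ((8 * k.natAbs : ℕ) : ℤ) * d := by
      push_cast
      rcases abs_choice k with h | h
      · exact ⟨c, by rw [h]⟩
      · exact ⟨-c, by rw [h]; ring⟩
    obtain ⟨d, hd⟩ := e
    rw [hd]
    exact (IsCoprime.neg_left hcu).add_mul_left_left d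
  rcases lt_or_gt_of_ne hk0 with hneg | hpos
  · -- `k < 0`
    have hc : IsCoprime (1 * u + (-8 * k) * v) ((8 * k.natAbs : ℕ) : ℤ) := by
      have := (hcneg v).neg_left
      have e : (1 * u + (-8 * k) * v) = -(-u + 8 * k * v) := by ring
      rw [e]; exact this
    obtain ⟨p, q, l, hp, hq, hl, hNp, hNq, hpq, hpu, hqv, hleq⟩ :=
      key 1 (-8 * k) isCoprime_one_left one_ne_zero (by omega) (Or.inl one_pos) hc
    exact ⟨p, l, q, fin p q l hp hq hl hNp hNq hpq hpu hqv (Or.inr (by rw [hleq]; ring))⟩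
  · have hc : IsCoprime ((-1) * u + (8 * k) * v) ((8 * k.natAbs : ℕ) : ℤ) := by
      have := hcneg v
      have e : ((-1) * u + (8 * k) * v) = (-u + 8 * k * v) := by ring
      rw [e]; exact this
    obtain ⟨p, q, l, hp, hq, hl, hNp, hNq, hpq, hpu, hqv, hleq⟩ :=
      key (-1) (8 * k) (isCoprime_one_left.neg_left) (by norm_num) (by omega) (Or.inr (by omega)) hc
    exact ⟨p, l, q, fin p q l hp hq hl hNp hNq hpq hpu hqv (Or.inl (by rw [hleq]; ring))⟩

end Pool.Agent.NJ.H9
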